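import Pool.Agent.R310.JL.Rat

/-!
Jack-Laurent symmetric functions: for `k` not rational and every bipartition, every
coefficient of the Jack-Laurent symmetric function has a finite limit as `p_0` tends to
infinity.
-/

namespace Pool.Agent.Results.MP_80096b_al.LimitExists

open Pool.Agent.R310.JL

/-- For every complex `k` that is not rational, every bipartition `(lam, mu)` and every `F`
with the defining property of the Jack-Laurent symmetric function of `(lam, mu)`, each
monomial coefficient of `F` has a finite limit as `p_0` tends to infinity. -/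
theorem result (k : ℂ) (hk : ∀ q : ℚ, k ≠ (q : ℂ)) (lam mu : List ℕ)
    (_hlam : IsPartition lam) (_hmu : IsPartition mu)
    (F : MvPolynomial {i : ℤ // i ≠ 0} (RatFunc ℂ)) (hF : IsJackLaurent k lam mu F)
    (m : {i : ℤ // i ≠ 0} →₀ ℕ) :
    ∃ c : ℂ, Filter.Tendsto
      (fun p₀ : ℂ => RatFunc.eval (RingHom.id ℂ) p₀ (MvPolynomial.coeff m F))
      (Bornology.cobounded ℂ) (nhds c) :=
  Pool.Agent.R310.JL.main hk lam mu F hF m

end Pool.Agent.Results.MP_80096b_al.LimitExists
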